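import Pool.Agent.H.MP_554556_an.E

set_option autoImplicit false

namespace Pool.Agent.Results.MP_87a692_al.Definite
open Matrix Quaternion Pool.Agent.H.MP_554556_an

/-- hypothesis (B) -/
def Adm {n : ℕ} (φ : ℍ →ₗ[ℝ] ℍ) (l : ℕ) (A : ℕ → Matrix (Fin n) (Fin n) ℍ) : Prop :=
  IsUnit (A l) ∧ ∀ k ≤ l, (Even k → ((A k).map φ)ᵀ = A k) ∧ (Odd k → ((A k).map φ)ᵀ = -A k)

theorem result (φ : ℍ →ₗ[ℝ] ℍ) (h1 : ∀ x y, φ (x * y) = φ y * φ x) (h2 : ∀ x, φ (φ x) = x)
    (h3 : ¬ ∀ x, φ x = star x) (n l : ℕ) (hl : 2 ≤ l) (A : ℕ → Matrix (Fin n) (Fin n) ℍ)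
    (B : Matrix (Fin n) (Fin n) ℍ) (hB : A l * B = 1 ∧ B * A l = 1) (hA : Adm φ l A)
    (hst : StablyBdd l (Adm φ l) A) (z : ℍ) (hz : IsEig (compan l A B) z) :
    ∀ v ∈ Root (compan l A B) z, v ≠ 0 → (fun i => φ (v i)) ⬝ᵥ gmat l A *ᵥ v ≠ 0 := by
  obtain ⟨m, rfl⟩ : ∃ m, l = m + 1 := ⟨l - 1, by omega⟩
  obtain ⟨ε, hε, hs⟩ := hst
  obtain ⟨β, b0, b1, b2, b3⟩ := exists_beta φ h1 h2 h3
  have bb : ∀ X : Matrix (Fin n) (Fin n) ℍ, β • -β • X = X := fun X => by
    rw [smul_smul, mul_neg, b2, neg_neg, one_smul]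
  have bb' : ∀ X : Matrix (Fin n) (Fin n) ℍ, -β • β • X = X := fun X => by
    rw [smul_smul, neg_mul, b2, neg_neg, one_smul]
  have adj : ∀ X : Matrix (Fin n) (Fin n) ℍ, (β • X)ᴴ = -(β • (X.map φ)ᵀ) := fun X => by
    ext1 i j
    simp only [conjTranspose_apply, Matrix.smul_apply, Matrix.neg_apply, transpose_apply,
      map_apply, smul_eq_mul, star_mul, b1, b3, mul_neg]
  have key : ∀ (X : Matrix (Fin n) (Fin n) ℍ) (k : ℕ),
      ((Even k → (X.map φ)ᵀ = X) ∧ (Odd k → (X.map φ)ᵀ = -X)) ↔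
        (β • X)ᴴ = ((-1) ^ k * (-1 : ℝ)) • β • X := by
    intro X k
    have inj : ∀ Y Z : Matrix (Fin n) (Fin n) ℍ, β • Y = β • Z ↔ Y = Z := fun Y Z =>
      ⟨fun h => by rw [← bb' Y, h, bb'], fun h => by rw [h]⟩
    rw [adj]
    rcases Nat.even_or_odd k with h | h
    · simp [h, h.neg_one_pow, Nat.not_odd_iff_even.mpr h, inj]
    · simp only [h, h.neg_one_pow, Nat.not_even_iff_odd.mpr h, neg_mul_neg, one_mul, one_smul,
        neg_eq_iff_eq_neg, ← smul_neg, inj, false_imp_iff, true_and, true_imp_iff]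
  obtain ⟨B', hB'⟩ : ∃ B' : Matrix (Fin n) (Fin n) ℍ, B' = Matrix.of fun i j => B i j * -β :=
    ⟨_, rfl⟩
  have e1 : ∀ X : Matrix (Fin n) (Fin n) ℍ, B' * (β • X) = B * X := fun X => by
    ext1 i j
    simp only [hB', Matrix.mul_apply, of_apply, Matrix.smul_apply, smul_eq_mul]
    refine Finset.sum_congr rfl fun k _ => ?_
    rw [mul_assoc, ← mul_assoc (-β), neg_mul, b2, neg_neg, one_mul]
  have e2 : β • A (m + 1) * B' = 1 := by
    ext1 i j
    have := congrFun (congrFun hB.1 i) j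
    simp only [hB', Matrix.mul_apply, of_apply, Matrix.smul_apply, smul_eq_mul] at this ⊢
    have e : ∑ k, β * A (m + 1) i k * (B k j * -β) = β * (∑ k, A (m + 1) i k * B k j) * -β := by
      simp only [Finset.mul_sum, Finset.sum_mul, mul_assoc]
    rw [e, this, Matrix.one_apply]
    split_ifs <;> simp [b2]
  have e3 : compan (m + 1) (fun k => β • A k) B' = compan (m + 1) A B := by
    ext1 p q
    simp only [compan, e1]
  have e4 : ∀ v, bf (gmat (m + 1) fun k => β • A k) v v =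
      β * ((fun i => φ (v i)) ⬝ᵥ gmat (m + 1) A *ᵥ v) := by
    intro v
    have : (gmat (m + 1) fun k => β • A k) = β • gmat (m + 1) A := by
      ext1 p q
      simp only [gmat, Matrix.smul_apply, smul_eq_mul, neg_one_pow_mul]
      split_ifs <;> simp
    rw [this, bf, smul_mulVec]
    simp only [dotProduct, Pi.star_apply, Pi.smul_apply, smul_eq_mul, Finset.mul_sum, ← mul_assoc,
      b3]
  have main := coreII (A := fun k => β • A k) (B := B') (fun k hk => (key _ k).mp (hA.2 k hk)) e2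
    hε (fun A' a1 a2 a3 => by
      have := hs (fun k => -β • A' k) ⟨by
          show IsUnit (-β • A' (m + 1))
          rw [a2 (m + 1) hl, bb']; exact hA.1,
        fun k hk => (key _ k).mpr (by rw [bb]; exact a1 k hk)⟩ (fun k _ i j => by
          have := a3 k i j
          rw [← bb' (A k)]
          simp only [Matrix.smul_apply, smul_eq_mul] at this ⊢
          rwa [← mul_sub, norm_mul, norm_neg, b0, one_mul])
      intro x hx he
      refine this x hx fun t => ?_
      simp only [smul_mulVec, ← Finset.smul_sum, he t, smul_zero]) (z := z) (by rwa [e3])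
  rw [e3] at main
  intro v hv hv0 h
  rcases main with main | main <;> simpa [e4, h] using main v hv hv0

end Pool.Agent.Results.MP_87a692_al.Definite
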